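import Pool.Agent.Helper9.Sym.Bridge

/-!
Symmetric systems with a prescribed group: atoms `a_i`, `i ∈ I`, each a set of Cohen reals, and a
group `Γ` of permutations of the countable index set `I`; invariance of truth under `Γ`.
The construction follows `Pool.Agent.Helper9.Sym.Atoms` (the case of all permutations of `ℕ`).
-/

namespace Pool.Agent.Helper54.CR

open Equiv
open Pool.Agent.Helper9.Sym (Name NFilter HSN OrderAct Fm Closed Generic Mod vl Ep vl_eq vl_surj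
  Ep_iff mem_cst cst_mem chkN chkN_eq smul_chkN hs_chkN chk omg Ep_chk Ep_omg isZF_Ep wf_Ep truth
  frc_smul frc_mono frc_congr exists_closed exists_generic perm_apply_inv)

variable {I : Type}

/-- Cohen conditions: finite consistent sets of information `(a, k, b)` (the `k`-th digit of the
real `a` is `b`) -/
def Cnd (I : Type) : Type :=
  {s : Finset ((I × ℕ) × ℕ × Bool) // ∀ a k, ¬ ((a, k, true) ∈ s ∧ (a, k, false) ∈ s)}

instance : PartialOrder (Cnd I) where
  le s t := t.1 ⊆ s.1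
  le_refl s := Finset.Subset.refl _
  le_trans s t u h h' := Finset.Subset.trans h' h
  le_antisymm s t h h' := Subtype.ext (Finset.Subset.antisymm h' h)

theorem Cnd.le_def {s t : Cnd I} : s ≤ t ↔ t.1 ⊆ s.1 := Iff.rfl

instance : OrderTop (Cnd I) where
  top := ⟨∅, by simp⟩
  le_top s := Finset.empty_subset _

instance [Countable I] : Countable (Cnd I) := Subtype.countable

/-- the map on informations -/
def mv (σ : Perm (I × ℕ)) : (I × ℕ) × ℕ × Bool ≃ (I × ℕ) × ℕ × Bool :=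
  Equiv.prodCongr σ (Equiv.refl _)

theorem mv_apply (σ : Perm (I × ℕ)) (a : I × ℕ) (k : ℕ) (b : Bool) :
    mv σ (a, k, b) = (σ a, k, b) := rfl

instance : MulAction (Perm (I × ℕ)) (Cnd I) where
  smul σ s := ⟨s.1.map (mv σ).toEmbedding, by
    intro a k h
    simp only [Finset.mem_map, Equiv.coe_toEmbedding] at h
    obtain ⟨⟨⟨a', k', b'⟩, h1, h2⟩, ⟨⟨a'', k'', b''⟩, h3, h4⟩⟩ := h
    rw [mv_apply] at h2 h4
    simp only [Prod.mk.injEq] at h2 h4
    obtain ⟨rfl, rfl, rfl⟩ := h2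
    obtain ⟨h5, rfl, rfl⟩ := h4
    rw [σ.injective h5] at h3
    exact s.2 _ _ ⟨h1, h3⟩⟩
  one_smul s := by
    apply Subtype.ext
    show s.1.map (mv 1).toEmbedding = s.1
    ext ⟨a, k, b⟩
    simp only [Finset.mem_map, Equiv.coe_toEmbedding]
    constructor
    · rintro ⟨⟨a', k', b'⟩, h1, h2⟩
      rw [mv_apply] at h2
      simp only [Perm.coe_one, id_eq] at h2
      rwa [h2] at h1
    · intro h
      exact ⟨_, h, rfl⟩
  mul_smul σ τ s := by
    apply Subtype.ext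
    show s.1.map (mv (σ * τ)).toEmbedding = (s.1.map (mv τ).toEmbedding).map (mv σ).toEmbedding
    rw [Finset.map_map]
    rfl

theorem mem_smul_cnd {σ : Perm (I × ℕ)} {s : Cnd I} {a : I × ℕ} {k : ℕ} {b : Bool} :
    (a, k, b) ∈ (σ • s).1 ↔ ∃ a', σ a' = a ∧ (a', k, b) ∈ s.1 := by
  show (a, k, b) ∈ s.1.map (mv σ).toEmbedding ↔ _
  simp only [Finset.mem_map, Equiv.coe_toEmbedding]
  constructor
  · rintro ⟨⟨a', k', b'⟩, h1, h2⟩
    rw [mv_apply] at h2
    simp only [Prod.mk.injEq] at h2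
    obtain ⟨rfl, rfl, rfl⟩ := h2
    exact ⟨a', rfl, h1⟩
  · rintro ⟨a', rfl, h⟩
    exact ⟨_, h, rfl⟩

/-- the group: permutations of the reals lying over a permutation in `Γ` of the atoms -/
def GrpS (Γ : Subgroup (Perm I)) : Subgroup (Perm I × Perm (I × ℕ)) where
  carrier := {g | g.1 ∈ Γ ∧ ∀ x, (g.2 x).1 = g.1 x.1}
  one_mem' := ⟨Γ.one_mem, fun _ => rfl⟩
  mul_mem' := by
    intro g h hg hh
    refine ⟨Γ.mul_mem hg.1 hh.1, fun x => ?_⟩
    show (g.2 (h.2 x)).1 = g.1 (h.1 x.1)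
    rw [hg.2, hh.2]
  inv_mem' := by
    intro g hg
    refine ⟨Γ.inv_mem hg.1, fun x => ?_⟩
    show (g.2⁻¹ x).1 = g.1⁻¹ x.1
    rw [Perm.eq_inv_iff_eq, ← hg.2]
    simp

variable {Γ : Subgroup (Perm I)}

/-- the group -/
abbrev Grp (Γ : Subgroup (Perm I)) : Type := GrpS Γ

/-- permutation of the atoms -/
def Grp.atm (g : Grp Γ) : Perm I := g.1.1
/-- permutation of the reals -/
def Grp.rl (g : Grp Γ) : Perm (I × ℕ) := g.1.2

theorem Grp.atm_mem (g : Grp Γ) : g.atm ∈ Γ := g.2.1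

theorem Grp.rl_fst (g : Grp Γ) (x : I × ℕ) : (g.rl x).1 = g.atm x.1 := g.2.2 x

theorem Grp.atm_inv (g : Grp Γ) : (g⁻¹).atm = g.atm⁻¹ := rfl

instance : OrderAct (Cnd I) (Grp Γ) where
  smul g s := g.rl • s
  one_smul s := one_smul (Perm (I × ℕ)) s
  mul_smul g h s := mul_smul g.rl h.rl s
  smul_mono g p q h := by
    show (g.rl • q).1 ⊆ (g.rl • p).1
    rintro ⟨a, k, b⟩ hx
    rw [mem_smul_cnd] at hx ⊢
    obtain ⟨a', h1, h2⟩ := hx
    exact ⟨a', h1, h h2⟩

theorem smul_cnd (g : Grp Γ) (s : Cnd I) : g • s = g.rl • s := rfl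

theorem smul_top (g : Grp Γ) : g • (⊤ : Cnd I) = ⊤ := by
  apply Subtype.ext
  ext ⟨a, k, b⟩
  rw [smul_cnd, mem_smul_cnd]
  constructor
  · rintro ⟨a', -, h⟩
    exact absurd h (Finset.notMem_empty _)
  · intro h
    exact absurd h (Finset.notMem_empty _)

/-- elements fixing the reals in `e` -/
def fixS (Γ : Subgroup (Perm I)) (e : Finset (I × ℕ)) : Subgroup (Grp Γ) where
  carrier := {g | ∀ x ∈ e, g.rl x = x}
  one_mem' := fun _ _ => rfl
  mul_mem' := by
    intro g h hg hh x hx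
    show g.rl (h.rl x) = x
    rw [hh x hx, hg x hx]
  inv_mem' := by
    intro g hg x hx
    show g.rl⁻¹ x = x
    rw [Perm.inv_eq_iff_eq]
    exact (hg x hx).symm

theorem mem_fixS {e : Finset (I × ℕ)} {g : Grp Γ} : g ∈ fixS Γ e ↔ ∀ x ∈ e, g.rl x = x := Iff.rfl

/-- the normal filter of subgroups -/
def Fl [DecidableEq I] (Γ : Subgroup (Perm I)) : NFilter (Grp Γ) where
  Big H := ∃ e : Finset (I × ℕ), fixS Γ e ≤ H
  top := ⟨∅, le_top⟩
  mono := by
    rintro H K hHK ⟨e, he⟩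
    exact ⟨e, he.trans hHK⟩
  inf := by
    rintro H K ⟨e, he⟩ ⟨f, hf⟩
    refine ⟨e ∪ f, le_inf (le_trans ?_ he) (le_trans ?_ hf)⟩
    · intro g hg x hx
      exact hg x (Finset.mem_union_left _ hx)
    · intro g hg x hx
      exact hg x (Finset.mem_union_right _ hx)
  conj := by
    rintro H g ⟨e, he⟩
    refine ⟨e.map g.rl.toEmbedding, fun h hh => ?_⟩
    refine ⟨g⁻¹ * h * g, he ?_, ?_⟩
    · intro x hx
      show g.rl⁻¹ (h.rl (g.rl x)) = x
      rw [hh (g.rl x) (Finset.mem_map_of_mem _ hx)]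
      simp
    · show g * (g⁻¹ * h * g) * g⁻¹ = h
      group

/-! ### names -/

/-- one piece of information -/
def one (a : I × ℕ) (k : ℕ) (b : Bool) : Cnd I := ⟨{(a, k, b)}, by
  intro a' k' h
  simp only [Finset.mem_singleton, Prod.mk.injEq] at h
  obtain ⟨⟨-, -, h⟩, ⟨-, -, h'⟩⟩ := h
  rw [← h'] at h
  exact absurd h (by simp)⟩

theorem le_one {s : Cnd I} {a : I × ℕ} {k : ℕ} {b : Bool} : s ≤ one a k b ↔ (a, k, b) ∈ s.1 := by
  rw [Cnd.le_def]
  simp [one]

theorem smul_one' (g : Grp Γ) (a : I × ℕ) (k : ℕ) (b : Bool) :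
    g • one a k b = one (g.rl a) k b := by
  apply Subtype.ext
  ext ⟨a', k', b'⟩
  rw [smul_cnd, mem_smul_cnd]
  simp only [one, Finset.mem_singleton, Prod.mk.injEq]
  constructor
  · rintro ⟨a'', rfl, rfl, h⟩; exact ⟨rfl, h⟩
  · rintro ⟨rfl, h⟩; exact ⟨a, rfl, rfl, h⟩

/-- name of a real -/
def xN (a : I × ℕ) : Name (Cnd I) := .mk ℕ (fun k => chkN k) (fun k => one a k true)

/-- name of an atom -/
def atN (i : I) : Name (Cnd I) := .mk ℕ (fun l => xN (i, l)) (fun _ => ⊤)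

/-- name of the set of all atoms with index in `S` -/
def AN (S : Set I) : Name (Cnd I) := .mk S (fun i => atN i.1) (fun _ => ⊤)

theorem smul_xN (g : Grp Γ) (a : I × ℕ) : g • xN a = xN (g.rl a) := by
  rw [xN, Name.smul_mk, xN]
  have h1 : (fun k => g • (chkN k : Name (Cnd I))) = fun k => chkN k :=
    funext fun k => smul_chkN g k
  have h2 : (fun k => g • one a k true) = fun k => one (g.rl a) k true :=
    funext fun k => smul_one' g a k true
  rw [h1, h2]

theorem smul_atN (g : Grp Γ) (i : I) : Name.EqAll (g • atN i) (atN (g.atm i)) := by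
  intro p
  rw [atN, Name.smul_mk, atN]
  constructor
  · intro l q _ _
    refine ⟨q, le_rfl, (g.rl (i, l)).2, le_top, ?_⟩
    show Name.eqF (g • xN (i, l)) (xN (g.atm i, (g.rl (i, l)).2)) q
    rw [smul_xN]
    have : (g.atm i, (g.rl (i, l)).2) = g.rl (i, l) := by
      rw [← g.rl_fst (i, l)]
    rw [this]
    exact Name.eqF_refl _ _
  · intro l q _ _
    have h1 : (g.rl⁻¹ (g.atm i, l)).1 = i := by
      have h := g.rl_fst (g.rl⁻¹ (g.atm i, l))
      rw [perm_apply_inv] at h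
      exact (g.atm.injective h).symm
    refine ⟨q, le_rfl, (g.rl⁻¹ (g.atm i, l)).2, by rw [smul_top]; exact le_top, ?_⟩
    show Name.eqF (g • xN (i, (g.rl⁻¹ (g.atm i, l)).2)) (xN (g.atm i, l)) q
    rw [smul_xN]
    have h2 : (i, (g.rl⁻¹ (g.atm i, l)).2) = g.rl⁻¹ (g.atm i, l) := Prod.ext h1.symm rfl
    rw [h2, perm_apply_inv]
    exact Name.eqF_refl _ _

theorem smul_AN (g : Grp Γ) (S S' : Set I) (hg : ∀ i, i ∈ S → g.atm i ∈ S')
    (hg' : ∀ i, i ∈ S' → g.atm⁻¹ i ∈ S) : Name.EqAll (g • AN S) (AN S') := by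
  intro p
  rw [AN, Name.smul_mk]
  constructor
  · rintro ⟨i, hi⟩ q _ _
    exact ⟨q, le_rfl, ⟨g.atm i, hg i hi⟩, le_top, smul_atN g i q⟩
  · rintro ⟨i, hi⟩ q _ _
    refine ⟨q, le_rfl, ⟨g.atm⁻¹ i, hg' i hi⟩, by rw [smul_top]; exact le_top, ?_⟩
    have := smul_atN g (g.atm⁻¹ i) q
    rwa [perm_apply_inv] at this

/-- name of an unordered pair -/
def upN (a b : Name (Cnd I)) : Name (Cnd I) := .mk Bool (fun t => bif t then a else b) (fun _ => ⊤)

/-- name of an ordered pair -/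
def opN (a b : Name (Cnd I)) : Name (Cnd I) := upN (upN a a) (upN a b)

theorem smul_upN (g : Grp Γ) (a b : Name (Cnd I)) : g • upN a b = upN (g • a) (g • b) := by
  rw [upN, Name.smul_mk, upN]
  have h1 : (fun t => g • (bif t then a else b)) = fun t => bif t then g • a else g • b := by
    funext t; cases t <;> rfl
  have h2 : (fun _ : Bool => g • (⊤ : Cnd I)) = fun _ => ⊤ := funext fun t => smul_top g
  rw [h1, h2]

theorem smul_opN (g : Grp Γ) (a b : Name (Cnd I)) : g • opN a b = opN (g • a) (g • b) := by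
  rw [opN, smul_upN, smul_upN, smul_upN, opN]

theorem upN_congr {a a' b b' : Name (Cnd I)} (h : Name.EqAll a a') (h' : Name.EqAll b b') :
    Name.EqAll (upN a b) (upN a' b') := by
  intro p
  constructor
  · intro t q _ _
    refine ⟨q, le_rfl, t, le_top, ?_⟩
    cases t
    · exact h' q
    · exact h q
  · intro t q _ _
    refine ⟨q, le_rfl, t, le_top, ?_⟩
    cases t
    · exact h' q
    · exact h q

theorem opN_congr {a a' b b' : Name (Cnd I)} (h : Name.EqAll a a') (h' : Name.EqAll b b') :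
    Name.EqAll (opN a b) (opN a' b') := upN_congr (upN_congr h h) (upN_congr h h')

/-- name of a set of named elements -/
def cstN {κ : Type} (v : κ → Name (Cnd I)) : Name (Cnd I) := .mk κ v (fun _ => ⊤)

theorem smul_cstN {κ : Type} (v : κ → Name (Cnd I)) (g : Grp Γ)
    (h : ∀ k, ∃ k', Name.EqAll (g • v k) (v k')) (h' : ∀ k, ∃ k', Name.EqAll (g • v k') (v k)) :
    Name.EqAll (g • cstN v) (cstN v) := by
  intro p
  rw [cstN, Name.smul_mk]
  constructor
  · intro k q _ _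
    obtain ⟨k', hk⟩ := h k
    exact ⟨q, le_rfl, k', le_top, hk q⟩
  · intro k q _ _
    obtain ⟨k', hk⟩ := h' k
    exact ⟨q, le_rfl, k', by rw [smul_top]; exact le_top, hk q⟩

theorem fixed_xN (a : I × ℕ) : (xN a).FixedBy (fixS Γ {a}) := by
  intro g hg
  rw [smul_xN, hg a (by simp)]
  exact Name.EqAll.refl _

theorem atm_of_fix {g : Grp Γ} {x : I × ℕ} (h : g.rl x = x) : g.atm x.1 = x.1 := by
  rw [← g.rl_fst, h]

theorem fixed_atN (i : I) : (atN i).FixedBy (fixS Γ {(i, 0)}) := by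
  intro g hg
  have h1 : g.atm i = i := atm_of_fix (x := (i, 0)) (hg (i, 0) (by simp))
  have := smul_atN g i
  rwa [h1] at this

section

variable [DecidableEq I]

theorem hs_xN (a : I × ℕ) : (xN a).HS (Fl Γ) :=
  ⟨⟨_, ⟨_, le_rfl⟩, fixed_xN a⟩, fun k => hs_chkN k⟩

theorem hs_atN (i : I) : (atN i).HS (Fl Γ) :=
  ⟨⟨_, ⟨_, le_rfl⟩, fixed_atN i⟩, fun l => hs_xN (i, l)⟩

omit [DecidableEq I] in
/-- the set of indices `S` is fixed by the permutations in `Γ` fixing `E` pointwise -/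
def SetFix (Γ : Subgroup (Perm I)) (E : Finset I) (S : Set I) : Prop :=
  ∀ π ∈ Γ, (∀ i ∈ E, π i = i) → ∀ i ∈ S, π i ∈ S

theorem hs_AN {E : Finset I} {S : Set I} (hS : SetFix Γ E S) : (AN S).HS (Fl Γ) := by
  refine ⟨⟨fixS Γ (E.map ⟨fun i => (i, 0), fun i j h => by simpa using h⟩), ⟨_, le_rfl⟩, ?_⟩,
    fun i => hs_atN i.1⟩
  intro g hg
  have hE : ∀ i ∈ E, g.atm i = i := fun i hi => atm_of_fix (x := (i, 0)) (hg (i, 0) (by
    simp only [Finset.mem_map, Function.Embedding.coeFn_mk]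
    exact ⟨i, hi, rfl⟩))
  have hE' : ∀ i ∈ E, g.atm⁻¹ i = i := fun i hi => by
    rw [Perm.inv_eq_iff_eq, hE i hi]
  exact smul_AN g S S (fun i hi => hS _ g.atm_mem hE i hi)
    (fun i hi => hS _ (Γ.inv_mem g.atm_mem) hE' i hi)

theorem hs_upN {a b : Name (Cnd I)} (ha : a.HS (Fl Γ)) (hb : b.HS (Fl Γ)) :
    (upN a b).HS (Fl Γ) := by
  obtain ⟨H, hH, h1⟩ := ((Name.hs_iff a).1 ha).1
  obtain ⟨K, hK, h2⟩ := ((Name.hs_iff b).1 hb).1
  refine ⟨⟨H ⊓ K, (Fl Γ).inf hH hK, ?_⟩, fun t => ?_⟩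
  · intro g hg
    have : g • upN a b = upN (g • a) (g • b) := smul_upN g a b
    show Name.EqAll (g • upN a b) (upN a b)
    rw [this]
    exact upN_congr (h1 g hg.1) (h2 g hg.2)
  · cases t
    · exact hb
    · exact ha

theorem hs_opN {a b : Name (Cnd I)} (ha : a.HS (Fl Γ)) (hb : b.HS (Fl Γ)) :
    (opN a b).HS (Fl Γ) := hs_upN (hs_upN ha ha) (hs_upN ha hb)

theorem hs_cstN {κ : Type} {v : κ → Name (Cnd I)} (hv : ∀ k, (v k).HS (Fl Γ))
    (h : ∀ (g : Grp Γ) k, ∃ k', Name.EqAll (g • v k) (v k'))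
    (h' : ∀ (g : Grp Γ) k, ∃ k', Name.EqAll (g • v k') (v k)) : (cstN v).HS (Fl Γ) :=
  ⟨⟨⊤, (Fl Γ).top, fun g _ => smul_cstN v g (h g) (h' g)⟩, hv⟩

end

/-! ### distinctness -/

theorem eqF_chkN {n m : ℕ} {p : Cnd I} (h : Name.eqF (chkN m) (chkN n) p) : m = n := by
  induction n using Nat.strong_induction_on generalizing m p with
  | _ n ih =>
    by_contra hne
    have hmem : ∀ (a b : ℕ) (p : Cnd I), Name.memF (chkN a) (chkN b) p →
        ∃ r ≤ p, ∃ k < b, Name.eqF (chkN a) (chkN k) r := by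
      intro a b p hab
      rw [chkN_eq b] at hab
      obtain ⟨r, hr, k, -, hk⟩ := hab p le_rfl
      exact ⟨r, hr, k.1, k.2, hk⟩
    have hlt : ∀ (a b : ℕ) (p : Cnd I), a < b → Name.memF (chkN a) (chkN b) p := by
      intro a b p hab
      rw [chkN_eq b]
      intro q _
      exact ⟨q, le_rfl, (⟨a, hab⟩ : Fin b), le_top, Name.eqF_refl _ _⟩
    rcases lt_or_gt_of_ne hne with hlt' | hgt
    · have h1 := Name.memF_congr_right (Name.eqF_symm h) (hlt m n p hlt')
      obtain ⟨r, -, k, hk, he⟩ := hmem _ _ _ h1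
      have := ih k (by omega) he
      omega
    · have h1 := Name.memF_congr_right h (hlt n m p hgt)
      obtain ⟨r, -, k, hk, he⟩ := hmem _ _ _ h1
      have := ih k hk he
      omega

/-- a number bigger than everything occurring in a condition -/
theorem exists_bound (s : Cnd I) : ∃ N, ∀ a k b, (a, k, b) ∈ s.1 → a.2 < N ∧ k < N := by
  refine ⟨s.1.sup (fun x => x.1.2 + x.2.1) + 1, fun a k b h => ?_⟩
  have := Finset.le_sup (f := fun x : (I × ℕ) × ℕ × Bool => x.1.2 + x.2.1) h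
  simp only at this
  omega

theorem not_eqF_xN {a b : I × ℕ} (hab : a ≠ b) (p : Cnd I) : ¬ Name.eqF (xN a) (xN b) p := by
  classical
  intro h
  obtain ⟨N, hN⟩ := exists_bound p
  -- extend by deciding digit N differently
  let s : Cnd I := ⟨p.1 ∪ {(a, N, true), (b, N, false)}, by
    intro c k hc
    simp only [Finset.mem_union, Finset.mem_insert, Finset.mem_singleton, Prod.mk.injEq,
      reduceCtorEq, and_false, or_false, false_or] at hc
    obtain ⟨h1 | ⟨h1, h2, -⟩, h3 | ⟨h3, h4, -⟩⟩ := hc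
    · exact p.2 _ _ ⟨h1, h3⟩
    · have := (hN _ _ _ h1).2; omega
    · have := (hN _ _ _ h3).2; omega
    · exact hab (h1.symm.trans h3)⟩
  have hs : s ≤ p := Finset.subset_union_left
  have h1 : Name.memF (chkN N) (xN a) s := by
    intro q hq
    refine ⟨q, le_rfl, N, ?_, Name.eqF_refl _ _⟩
    exact hq.trans (le_one.2 (by simp [s]))
  have h2 := Name.memF_congr_right (Name.eqF_mono hs h) h1
  obtain ⟨r, hr, k, hk, he⟩ := h2 s le_rfl
  have h3 := eqF_chkN he
  subst h3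
  have h4 : (b, N, true) ∈ r.1 := le_one.1 hk
  have h5 : (b, N, false) ∈ r.1 := hr (by simp [s])
  exact r.2 _ _ ⟨h4, h5⟩

theorem not_eqF_atN {i j : I} (hij : i ≠ j) (p : Cnd I) : ¬ Name.eqF (atN i) (atN j) p := by
  intro h
  rw [Name.eqF_def] at h
  obtain ⟨r, -, l, -, he⟩ := h.1 (0 : ℕ) p le_rfl le_top
  exact not_eqF_xN (by intro h'; exact hij (congrArg Prod.fst h')) r he

/-! ### lifting permutations -/

/-- exchange `[0, N)` and `[N, 2N)` -/
def shf (N : ℕ) : Perm ℕ where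
  toFun l := if l < N then l + N else if l < 2 * N then l - N else l
  invFun l := if l < N then l + N else if l < 2 * N then l - N else l
  left_inv l := by
    dsimp only
    split_ifs <;> omega
  right_inv l := by
    dsimp only
    split_ifs <;> omega

open Classical in
/-- lift of a permutation of the atoms -/
noncomputable def liftG (π : Perm I) (hπ : π ∈ Γ) (N : ℕ) : Grp Γ :=
  ⟨(π, Equiv.prodShear π fun i => if π i = i then 1 else shf N), hπ, fun x => rfl⟩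

theorem liftG_atm (π : Perm I) (hπ : π ∈ Γ) (N : ℕ) : (liftG π hπ N).atm = π := rfl

theorem liftG_rl_of_fix {π : Perm I} {hπ : π ∈ Γ} {N : ℕ} {x : I × ℕ} (h : π x.1 = x.1) :
    (liftG π hπ N).rl x = x := by
  classical
  show (Equiv.prodShear π fun i => if π i = i then 1 else shf N) x = x
  obtain ⟨i, l⟩ := x
  simp only at h
  simp [Equiv.prodShear, h]

theorem liftG_rl_of_ne {π : Perm I} {hπ : π ∈ Γ} {N : ℕ} {x : I × ℕ} (h : π x.1 ≠ x.1)
    (hl : x.2 < N) : (liftG π hπ N).rl x = (π x.1, x.2 + N) := by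
  classical
  show (Equiv.prodShear π fun i => if π i = i then 1 else shf N) x = _
  obtain ⟨i, l⟩ := x
  simp only at h hl
  simp [Equiv.prodShear, h, shf, hl]

/-- a condition is compatible with its image under a suitable lift -/
theorem compat (π : Perm I) (hπ : π ∈ Γ) (s : Cnd I) :
    ∃ N, ∃ t : Cnd I, t ≤ s ∧ t ≤ liftG π hπ N • s := by
  classical
  obtain ⟨N, hN⟩ := exists_bound s
  refine ⟨N, ⟨s.1 ∪ (liftG π hπ N • s).1, ?_⟩, Finset.subset_union_left,
    Finset.subset_union_right⟩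
  have key : ∀ a k b, (a, k, b) ∈ s.1 → (a, k, !b) ∈ (liftG π hπ N • s).1 → False := by
    intro a k b h1 h2
    rw [smul_cnd, mem_smul_cnd] at h2
    obtain ⟨a', rfl, h3⟩ := h2
    by_cases h : π a'.1 = a'.1
    · rw [liftG_rl_of_fix h] at h1
      cases b
      · exact s.2 _ _ ⟨h3, h1⟩
      · exact s.2 _ _ ⟨h1, h3⟩
    · have h4 := (hN _ _ _ h3).1
      rw [liftG_rl_of_ne h h4] at h1
      have := (hN _ _ _ h1).1
      simp only at this
      omega
  rintro a k ⟨h1, h2⟩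
  rcases Finset.mem_union.1 h1 with h1 | h1 <;> rcases Finset.mem_union.1 h2 with h2 | h2
  · exact s.2 _ _ ⟨h1, h2⟩
  · exact key _ _ _ h1 h2
  · exact key _ _ _ h2 h1
  · exact (liftG π hπ N • s).2 _ _ ⟨h1, h2⟩

/-! ### supports and invariance -/

section

variable [DecidableEq I] {X : Set (HSN (Cnd I) (Fl Γ))} {G : Set (Cnd I)} {hG : Generic X G}

/-- the element `x` of the model has support `E` -/
def Supp (E : Finset I) (x : Mod hG) : Prop :=
  ∃ (a : X) (e : Finset (I × ℕ)), vl hG a = x ∧ (∀ y ∈ e, y.1 ∈ E) ∧ a.1.1.FixedBy (fixS Γ e)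

theorem exists_supp (x : Mod hG) : ∃ E, Supp E x := by
  obtain ⟨a, rfl⟩ := vl_surj x
  obtain ⟨H, ⟨e, he⟩, hH⟩ := a.1.exists_fixed
  exact ⟨e.image Prod.fst, a, e, rfl, fun y hy => Finset.mem_image_of_mem _ hy,
    hH.mono he⟩

theorem Supp.mono {E E' : Finset I} (h : E ⊆ E') {x : Mod hG} (hx : Supp E x) : Supp E' x := by
  obtain ⟨a, e, h1, h2, h3⟩ := hx
  exact ⟨a, e, h1, fun y hy => h (h2 y hy), h3⟩

/-- the invariance principle -/
theorem invariance (hc : Closed X) (hat : ∀ i, (⟨atN i, hs_atN i⟩ : HSN (Cnd I) (Fl Γ)) ∈ X)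
    {E : Finset I} {π : Perm I} (hπΓ : π ∈ Γ) (hπ : ∀ i ∈ E, π i = i) (φ : Fm)
    (v w : ℕ → Mod hG)
    (hvw : ∀ n, (v n = w n ∧ Supp E (v n)) ∨
      ∃ i, v n = vl hG ⟨_, hat i⟩ ∧ w n = vl hG ⟨_, hat (π i)⟩)
    (hv : φ.Sat (Ep hG) v) : φ.Sat (Ep hG) w := by
  -- choose names
  have hch : ∀ n, ∃ (a b : X), vl hG a = v n ∧ vl hG b = w n ∧
      ∃ e : Finset (I × ℕ), (∀ y ∈ e, y.1 ∈ E) ∧
        ∀ g : Grp Γ, (∀ x ∈ e, g.rl x = x) → g.atm = π → Name.EqAll (g • a.1.1) b.1.1 := by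
    intro n
    rcases hvw n with ⟨h1, a, e, h2, h3, h4⟩ | ⟨i, h1, h2⟩
    · exact ⟨a, a, h2, h2.trans h1, e, h3, fun g hg _ => h4 g hg⟩
    · refine ⟨_, _, h1.symm, h2.symm, ∅, by simp, fun g _ hg => ?_⟩
      have := smul_atN g i
      rwa [hg] at this
  choose a b ha hb e he1 he2 using hch
  obtain rfl : (fun n => vl hG (a n)) = v := funext ha
  obtain rfl : (fun n => vl hG (b n)) = w := funext hb
  by_contra hw
  obtain ⟨p, hp, hφ⟩ := (truth hc φ a).1 hv
  obtain ⟨q, hq, hn⟩ := (truth hc (.neg φ) b).1 hw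
  obtain ⟨r, hr, h1, h2⟩ := hG.dir hp hq
  obtain ⟨N, t, ht1, ht2⟩ := compat π hπΓ r
  have h3 := frc_smul φ (liftG π hπΓ N) (frc_mono φ h1 hφ)
  have h4 := frc_mono φ ht2 h3
  refine hn t (ht1.trans h2) (frc_congr φ (fun n => ?_) h4)
  refine he2 n (liftG π hπΓ N) (fun x hx => ?_) (liftG_atm π hπΓ N) t
  exact liftG_rl_of_fix (hπ _ (he1 n x hx))

end

end Pool.Agent.Helper54.CR
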