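import Pool.Agent.Helper54.CR.Atoms
import Pool.Agent.Helper9.CRT.Proof

/-!
The symmetric model given by a group `Γ` of permutations of a countable index set `I`, with a
relation on the atoms and a function on the pairs of atoms.
-/

namespace Pool.Agent.Helper54.CR

open Equiv
open Pool.Agent.Helper9.Sym (Name NFilter HSN OrderAct Fm Closed Generic Mod vl Ep vl_eq vl_surj
  Ep_iff mem_cst cst_mem chkN chkN_eq smul_chkN hs_chkN chk omg Ep_chk Ep_omg isZF_Ep wf_Ep truth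
  frc_smul frc_mono frc_congr exists_closed exists_generic perm_apply_inv isZF_tr sat_tr tr)
open Pool.Agent.Helper9.CRT

/-- data invariant under `Γ`: a family of finitely supported sets of indices, a binary relation,
and a function on pairs whose values are sets of the family -/
structure Data {I : Type} (Γ : Subgroup (Perm I)) where
  κ : Type
  cnt : Countable κ
  S : κ → Set I
  fix : ∀ k, ∃ E, SetFix Γ E (S k)
  lt : I → I → Prop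
  lt_inv : ∀ π ∈ Γ, ∀ i j, lt i j → lt (π i) (π j)
  B : I → I → κ
  B_inv : ∀ π ∈ Γ, ∀ i j x, x ∈ S (B i j) → π x ∈ S (B (π i) (π j))

variable {I : Type} [DecidableEq I] {Γ : Subgroup (Perm I)} (D : Data Γ)

/-- name of the relation -/
def RN : Name (Cnd I) :=
  cstN (κ := {p : I × I // D.lt p.1 p.2}) (fun p => opN (atN p.1.1) (atN p.1.2))

/-- name of the function -/
def fN : Name (Cnd I) :=
  cstN (κ := {p : I × I // p.1 ≠ p.2})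
    (fun p => opN (upN (atN p.1.1) (atN p.1.2)) (AN (D.S (D.B p.1.1 p.1.2))))

theorem hs_RN : (RN D).HS (Fl Γ) := by
  refine hs_cstN (fun p => hs_opN (hs_atN _) (hs_atN _)) ?_ ?_
  · rintro g ⟨⟨i, j⟩, h⟩
    refine ⟨⟨(g.atm i, g.atm j), D.lt_inv _ g.atm_mem _ _ h⟩, ?_⟩
    rw [smul_opN]
    exact opN_congr (smul_atN g i) (smul_atN g j)
  · rintro g ⟨⟨i, j⟩, h⟩
    refine ⟨⟨(g.atm⁻¹ i, g.atm⁻¹ j), D.lt_inv _ (Γ.inv_mem g.atm_mem) _ _ h⟩, ?_⟩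
    rw [smul_opN]
    have h1 := smul_atN g (g.atm⁻¹ i)
    have h2 := smul_atN g (g.atm⁻¹ j)
    rw [perm_apply_inv] at h1 h2
    exact opN_congr h1 h2

theorem hs_AS (k : D.κ) : (AN (D.S k)).HS (Fl Γ) := by
  obtain ⟨E, hE⟩ := D.fix k
  exact hs_AN hE

omit [DecidableEq I] in
theorem smul_AB (g : Grp Γ) (i j : I) : Name.EqAll (g • AN (D.S (D.B i j)))
    (AN (D.S (D.B (g.atm i) (g.atm j)))) := by
  refine smul_AN g _ _ (fun x hx => D.B_inv _ g.atm_mem _ _ _ hx) (fun x hx => ?_)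
  have := D.B_inv _ (Γ.inv_mem g.atm_mem) _ _ _ hx
  simpa using this

theorem hs_fN : (fN D).HS (Fl Γ) := by
  refine hs_cstN (fun p => hs_opN (hs_upN (hs_atN _) (hs_atN _)) (hs_AS D _)) ?_ ?_
  · rintro g ⟨⟨i, j⟩, h⟩
    refine ⟨⟨(g.atm i, g.atm j), fun h' => h (g.atm.injective h')⟩, ?_⟩
    rw [smul_opN, smul_upN]
    exact opN_congr (upN_congr (smul_atN g i) (smul_atN g j)) (smul_AB D g i j)
  · rintro g ⟨⟨i, j⟩, h⟩
    refine ⟨⟨(g.atm⁻¹ i, g.atm⁻¹ j), fun h' => h (g.atm⁻¹.injective h')⟩, ?_⟩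
    rw [smul_opN, smul_upN]
    have h1 := smul_atN g (g.atm⁻¹ i)
    have h2 := smul_atN g (g.atm⁻¹ j)
    have h3 := smul_AB D g (g.atm⁻¹ i) (g.atm⁻¹ j)
    rw [perm_apply_inv] at h1 h2
    rw [perm_apply_inv, perm_apply_inv] at h3
    exact opN_congr (upN_congr h1 h2) h3

/-- the pair of two atoms -/
def uS (i j : I) : HSN (Cnd I) (Fl Γ) := ⟨upN (atN i) (atN j), hs_upN (hs_atN i) (hs_atN j)⟩
/-- the ordered pair of two atoms -/
def oS (i j : I) : HSN (Cnd I) (Fl Γ) := ⟨opN (atN i) (atN j), hs_opN (hs_atN i) (hs_atN j)⟩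

def p1 (i j : I) : HSN (Cnd I) (Fl Γ) :=
  ⟨upN (upN (atN i) (atN j)) (upN (atN i) (atN j)),
    hs_upN (hs_upN (hs_atN i) (hs_atN j)) (hs_upN (hs_atN i) (hs_atN j))⟩
def p2 (i j : I) : HSN (Cnd I) (Fl Γ) :=
  ⟨upN (upN (atN i) (atN j)) (AN (D.S (D.B i j))),
    hs_upN (hs_upN (hs_atN i) (hs_atN j)) (hs_AS D _)⟩
def p3 (i j : I) : HSN (Cnd I) (Fl Γ) :=
  ⟨opN (upN (atN i) (atN j)) (AN (D.S (D.B i j))),
    hs_opN (hs_upN (hs_atN i) (hs_atN j)) (hs_AS D _)⟩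

theorem exists_modelX [Countable I] : ∃ (X : Set (HSN (Cnd I) (Fl Γ))) (G : Set (Cnd I)),
    Closed X ∧ Generic X G ∧
    (∀ n, (chk n : HSN (Cnd I) (Fl Γ)) ∈ X) ∧ (omg : HSN (Cnd I) (Fl Γ)) ∈ X ∧
    (∀ i, (⟨atN i, hs_atN i⟩ : HSN (Cnd I) (Fl Γ)) ∈ X) ∧
    (∀ k, (⟨AN (D.S k), hs_AS D k⟩ : HSN (Cnd I) (Fl Γ)) ∈ X) ∧
    (∀ i j, uS i j ∈ X) ∧ (∀ i j, oS i j ∈ X) ∧ (∀ i j, p1 i j ∈ X) ∧ (∀ i j, p2 D i j ∈ X) ∧
    (∀ i j, p3 D i j ∈ X) ∧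
    (⟨RN D, hs_RN D⟩ : HSN (Cnd I) (Fl Γ)) ∈ X ∧ (⟨fN D, hs_fN D⟩ : HSN (Cnd I) (Fl Γ)) ∈ X := by
  have := D.cnt
  obtain ⟨X, hS, hX, hc⟩ := exists_closed
    (Set.range (fun n => (chk n : HSN (Cnd I) (Fl Γ))) ∪ {omg} ∪
      Set.range (fun i => (⟨atN i, hs_atN i⟩ : HSN (Cnd I) (Fl Γ))) ∪
      Set.range (fun k => (⟨AN (D.S k), hs_AS D k⟩ : HSN (Cnd I) (Fl Γ))) ∪
      Set.range (fun p : I × I => (uS p.1 p.2 : HSN (Cnd I) (Fl Γ))) ∪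
      Set.range (fun p : I × I => (oS p.1 p.2 : HSN (Cnd I) (Fl Γ))) ∪
      Set.range (fun p : I × I => (p1 p.1 p.2 : HSN (Cnd I) (Fl Γ))) ∪
      Set.range (fun p : I × I => (p2 D p.1 p.2 : HSN (Cnd I) (Fl Γ))) ∪
      Set.range (fun p : I × I => (p3 D p.1 p.2 : HSN (Cnd I) (Fl Γ))) ∪
      {⟨RN D, hs_RN D⟩} ∪ {⟨fN D, hs_fN D⟩})
    (by
      refine Set.Countable.union (Set.Countable.union (Set.Countable.union (Set.Countable.union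
        (Set.Countable.union (Set.Countable.union (Set.Countable.union (Set.Countable.union
        (Set.Countable.union (Set.Countable.union ?_ ?_) ?_) ?_) ?_) ?_) ?_) ?_) ?_) ?_) ?_
      all_goals first | exact Set.countable_range _ | exact Set.countable_singleton _)
  obtain ⟨G, hG, -, -⟩ := exists_generic hX hc (κ := Empty) Empty.elim (fun n => n.elim) ⊤
  refine ⟨X, G, hc, hG, fun n => hS ?_, hS ?_, fun i => hS ?_, fun k => hS ?_,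
    fun i j => hS ?_, fun i j => hS ?_, fun i j => hS ?_, fun i j => hS ?_, fun i j => hS ?_,
    hS ?_, hS ?_⟩
  · exact .inl (.inl (.inl (.inl (.inl (.inl (.inl (.inl (.inl (.inl ⟨n, rfl⟩)))))))))
  · exact .inl (.inl (.inl (.inl (.inl (.inl (.inl (.inl (.inl (.inr rfl)))))))))
  · exact .inl (.inl (.inl (.inl (.inl (.inl (.inl (.inl (.inr ⟨i, rfl⟩))))))))
  · exact .inl (.inl (.inl (.inl (.inl (.inl (.inl (.inr ⟨k, rfl⟩)))))))
  · exact .inl (.inl (.inl (.inl (.inl (.inl (.inr ⟨(i, j), rfl⟩))))))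
  · exact .inl (.inl (.inl (.inl (.inl (.inr ⟨(i, j), rfl⟩)))))
  · exact .inl (.inl (.inl (.inl (.inr ⟨(i, j), rfl⟩))))
  · exact .inl (.inl (.inl (.inr ⟨(i, j), rfl⟩)))
  · exact .inl (.inl (.inr ⟨(i, j), rfl⟩))
  · exact .inl (.inr rfl)
  · exact .inr rfl

section

variable {X : Set (HSN (Cnd I) (Fl Γ))} {G : Set (Cnd I)} {hG : Generic X G}

/-- membership in a set given by a constant name -/
theorem Ep_upN {a b : Name (Cnd I)} {ha : a.HS (Fl Γ)} {hb : b.HS (Fl Γ)}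
    {hc : (upN a b).HS (Fl Γ)} (hXa : (⟨a, ha⟩ : HSN (Cnd I) (Fl Γ)) ∈ X)
    (hXb : (⟨b, hb⟩ : HSN (Cnd I) (Fl Γ)) ∈ X)
    (hXc : (⟨upN a b, hc⟩ : HSN (Cnd I) (Fl Γ)) ∈ X) (x : Mod hG) :
    Ep hG x (vl hG ⟨_, hXc⟩) ↔ x = vl hG ⟨_, hXa⟩ ∨ x = vl hG ⟨_, hXb⟩ := by
  constructor
  · intro h
    obtain ⟨t, hj, -, rfl⟩ := mem_cst hG h
    change Bool at t
    cases t
    · exact Or.inr rfl
    · exact Or.inl rfl
  · rintro (rfl | rfl)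
    · exact Ep_iff.2 ⟨⊤, hG.top, fun q _ => ⟨q, le_rfl, true, le_top, Name.eqF_refl _ _⟩⟩
    · exact Ep_iff.2 ⟨⊤, hG.top, fun q _ => ⟨q, le_rfl, false, le_top, Name.eqF_refl _ _⟩⟩

end

/-- **The symmetric model.** -/
theorem exists_model [Countable I] : ∃ (M : Type 1) (_ : Membership M M),
    Helper73.Sym.StdZF M ∧ WellFounded (fun x y : M => x ∈ y) ∧
    ∃ (at' : I → M) (A : D.κ → M) (R f : M) (Supp : Finset I → M → Prop),
      Function.Injective at' ∧ (∀ k x, x ∈ A k ↔ ∃ i, i ∈ D.S k ∧ x = at' i) ∧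
      (∀ z, z ∈ R ↔ ∃ i j, D.lt i j ∧ IsOPair (at' i) (at' j) z) ∧
      (∀ z, z ∈ f ↔ ∃ i j, i ≠ j ∧ ∃ u, IsPair (at' i) (at' j) u ∧
        IsOPair u (A (D.B i j)) z) ∧
      (∀ x, ∃ E, Supp E x) ∧ (∀ E E' x, E ⊆ E' → Supp E x → Supp E' x) ∧
      ∀ (E : Finset I) (π : Perm I), π ∈ Γ → (∀ i ∈ E, π i = i) →
        ∀ (φ : Helper73.Sym.Fml) (v w : ℕ → M),
        (∀ n, (v n = w n ∧ Supp E (v n)) ∨ ∃ i, v n = at' i ∧ w n = at' (π i)) →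
        Helper73.Sym.Sat φ v → Helper73.Sym.Sat φ w := by
  obtain ⟨X, G, hc, hG, hchk, homg, hat, hA, hu, ho, h1, h2, h3, hR, hf⟩ := exists_modelX D
  have hzf := isZF_Ep (hG := hG) hc hchk homg
  let _ : Membership (Mod hG) (Mod hG) := ⟨fun y x => Ep hG x y⟩
  have hzf' : Helper73.Sym.IsZF (Mod hG) := isZF_tr hzf
  -- pairs
  have hU : ∀ i j, IsPair (vl hG ⟨_, hat i⟩) (vl hG ⟨_, hat j⟩) (vl hG ⟨_, hu i j⟩) :=
    fun i j x => Ep_upN (hat i) (hat j) (hu i j) x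
  have hO : ∀ i j, IsOPair (vl hG ⟨_, hat i⟩) (vl hG ⟨_, hat j⟩) (vl hG ⟨_, ho i j⟩) :=
    fun i j => ⟨_, _, hU i i, hU i j, fun x => Ep_upN (hu i i) (hu i j) (ho i j) x⟩
  have hP : ∀ i j, IsOPair (vl hG ⟨_, hu i j⟩) (vl hG ⟨_, hA (D.B i j)⟩)
      (vl hG ⟨_, h3 i j⟩) :=
    fun i j => ⟨vl hG ⟨_, h1 i j⟩, vl hG ⟨_, h2 i j⟩,
      fun x => Ep_upN (hu i j) (hu i j) (h1 i j) x,
      fun x => Ep_upN (hu i j) (hA _) (h2 i j) x,
      fun x => Ep_upN (h1 i j) (h2 i j) (h3 i j) x⟩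
  refine ⟨Mod hG, inferInstance, ?_, wf_Ep hG, fun i => vl hG ⟨_, hat i⟩,
    fun k => vl hG ⟨_, hA k⟩, vl hG ⟨_, hR⟩, vl hG ⟨_, hf⟩, Supp, ?_, ?_, ?_, ?_, exists_supp,
    fun E E' x h hx => hx.mono h, ?_⟩
  · refine ⟨fun n => vl hG ⟨chk n, hchk n⟩, vl hG ⟨omg, homg⟩, ?_, ?_, ?_⟩
    · intro z hz
      obtain ⟨m, hm, -⟩ := (Ep_chk hchk 0 z).1 hz
      omega
    · intro n z
      show Ep hG z _ ↔ Ep hG z _ ∨ _
      rw [Ep_chk, Ep_chk]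
      constructor
      · rintro ⟨m, hm, rfl⟩
        rcases Nat.lt_succ_iff_lt_or_eq.1 hm with h | rfl
        · exact Or.inl ⟨m, h, rfl⟩
        · exact Or.inr rfl
      · rintro (⟨m, hm, rfl⟩ | rfl)
        · exact ⟨m, by omega, rfl⟩
        · exact ⟨n, by omega, rfl⟩
    · exact Ep_omg hchk homg
  · intro i j hij
    by_contra hne
    obtain ⟨p, -, hp⟩ := vl_eq.1 hij
    exact not_eqF_atN hne p hp
  · intro k x
    show Ep hG x _ ↔ _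
    constructor
    · intro h
      obtain ⟨j, hj, -, rfl⟩ := mem_cst hG h
      exact ⟨j.1, j.2, rfl⟩
    · rintro ⟨i, hi, rfl⟩
      exact Ep_iff.2 ⟨⊤, hG.top, fun q _ => ⟨q, le_rfl, ⟨i, hi⟩, le_top, Name.eqF_refl _ _⟩⟩
  · intro z
    constructor
    · intro h
      obtain ⟨j, hj, -, rfl⟩ := mem_cst hG h
      exact ⟨j.1.1, j.1.2, j.2, hO j.1.1 j.1.2⟩
    · rintro ⟨i, j, hij, hz⟩
      have : z = vl hG ⟨_, ho i j⟩ := by
        rw [isOPair_iff.1 hz, isOPair_iff.1 (hO i j)]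
      rw [this]
      exact Ep_iff.2 ⟨⊤, hG.top, fun q _ => ⟨q, le_rfl, ⟨(i, j), hij⟩, le_top,
        Name.eqF_refl _ _⟩⟩
  · intro z
    constructor
    · intro h
      obtain ⟨j, hj, -, rfl⟩ := mem_cst hG h
      exact ⟨j.1.1, j.1.2, j.2, _, hU j.1.1 j.1.2, hP j.1.1 j.1.2⟩
    · rintro ⟨i, j, hij, u, hu', hz⟩
      have hu'' : u = vl hG ⟨_, hu i j⟩ := by
        rw [isPair_iff.1 hu', isPair_iff.1 (hU i j)]
      subst hu''
      have : z = vl hG ⟨_, h3 i j⟩ := by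
        rw [isOPair_iff.1 hz, isOPair_iff.1 (hP i j)]
      rw [this]
      exact Ep_iff.2 ⟨⊤, hG.top, fun q _ => ⟨q, le_rfl, ⟨(i, j), hij⟩, le_top,
        Name.eqF_refl _ _⟩⟩
  · intro E π hπΓ hπ φ v w hvw hv
    rw [← sat_tr] at hv ⊢
    exact invariance hc hat hπΓ hπ (tr φ) v w hvw hv

end Pool.Agent.Helper54.CR
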