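import Pool.Agent.Helper54.CR.Tree

/-!
In the symmetric model of the tree group the set of atoms is linearly ordered, it is CRT-finite,
and it satisfies `RT²_n` for all `n`.
-/

namespace Pool.Agent.Helper54.CR

open Equiv
open Pool.Agent.Helper9.CRT
open Pool.Agent.Helper73.Sym (Fml Sat IsZF StdZF upair op mem_upair op_inj upair_eq mext pw mem_pw
  Sub nat mem_nat)

/-- the ball spanned by two points -/
def TT (x y : Tr) : Set Tr := {z | T x y z}

theorem TT_symm (x y : Tr) : TT x y = TT y x := Set.ext fun _ => ⟨T_symm, T_symm⟩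

theorem mem_TT_left (x y : Tr) : x ∈ TT x y := fun q _ => Ag.refl q x
theorem mem_TT_right (x y : Tr) : y ∈ TT x y := fun _ hq => hq

/-- the configuration of four points, symmetric form -/
structure Cfg (p q r s : Tr) : Prop where
  pq : p ≠ q
  rs : r ≠ s
  pr : p ≠ r
  ps : p ≠ s
  qr : q ≠ r
  qs : q ≠ s
  h1 : TT p s = TT p r
  h2 : TT q r = TT p r
  h3 : TT q s = TT p r
  h4 : TT p q ≠ TT p r
  h5 : TT r s ≠ TT p r

theorem Four.cfg {p q r s : Tr} (h : Four p q r s) : Cfg p q r s where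
  pq := h.pq
  rs := h.rs
  pr := h.pr
  ps := h.ps
  qr := h.qr
  qs := h.qs
  h1 := Set.ext fun z => (h.h1 z).symm
  h2 := Set.ext fun z => (h.h2 z).symm
  h3 := Set.ext fun z => (h.h3 z).symm
  h4 := by
    intro h'
    have : r ∈ TT p q := by rw [h']; exact mem_TT_right p r
    exact h.h4 this
  h5 := by
    intro h'
    have : p ∈ TT r s := by rw [h']; exact mem_TT_left p r
    exact h.h5 this

theorem Cfg.swap1 {p q r s : Tr} (h : Cfg p q r s) : Cfg q p r s where
  pq := h.pq.symm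
  rs := h.rs
  pr := h.qr
  ps := h.qs
  qr := h.pr
  qs := h.ps
  h1 := h.h3.trans h.h2.symm
  h2 := h.h2.symm
  h3 := h.h1.trans h.h2.symm
  h4 := by rw [TT_symm, h.h2]; exact h.h4
  h5 := by rw [h.h2]; exact h.h5

theorem Cfg.swap2 {p q r s : Tr} (h : Cfg p q r s) : Cfg p q s r where
  pq := h.pq
  rs := h.rs.symm
  pr := h.ps
  ps := h.pr
  qr := h.qs
  qs := h.qr
  h1 := h.h1.symm
  h2 := h.h3.trans h.h1.symm
  h3 := h.h2.trans h.h1.symm
  h4 := by rw [h.h1]; exact h.h4
  h5 := by rw [TT_symm, h.h1]; exact h.h5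

/-- the model of the tree group -/
theorem exists_tree_model : ∃ (M : Type 1) (_ : Membership M M),
    StdZF M ∧ WellFounded (fun x y : M => x ∈ y) ∧
    ∃ (at' : Tr → M) (A : Option (Bool × Tr × Tr) → M) (R f : M) (Supp : Finset Tr → M → Prop),
      Function.Injective at' ∧ (∀ k x, x ∈ A k ↔ ∃ i, i ∈ fam k ∧ x = at' i) ∧
      (∀ z, z ∈ R ↔ ∃ i j, Lt i j ∧ IsOPair (at' i) (at' j) z) ∧
      (∀ z, z ∈ f ↔ ∃ i j, i ≠ j ∧ ∃ u, IsPair (at' i) (at' j) u ∧
        IsOPair u (A (some (false, i, j))) z) ∧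
      (∀ x, ∃ E, Supp E x) ∧ (∀ E E' x, E ⊆ E' → Supp E x → Supp E' x) ∧
      ∀ (E : Finset Tr) (π : Perm Tr), π ∈ Gm → (∀ i ∈ E, π i = i) →
        ∀ (φ : Fml) (v w : ℕ → M),
        (∀ n, (v n = w n ∧ Supp E (v n)) ∨ ∃ i, v n = at' i ∧ w n = at' (π i)) →
        Sat φ v → Sat φ w := exists_model treeData

theorem main : ∃ (M : Type 1) (_ : Membership M M), IsZF M ∧
    WellFounded (fun x y : M => x ∈ y) ∧
    ∃ X R : M, IsLinearOrder R X ∧ ¬ CanonicalRamsey X ∧ ∀ n : M, IsNat n → RT2 n X := by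
  obtain ⟨M, _, hM, hwf, at', A, R, f, Supp, hinj, hA, hR, hf, hsupp, hmono, hinv⟩ :=
    exists_tree_model
  have hX : ∀ x, x ∈ A none ↔ ∃ i, x = at' i := by
    intro x
    rw [hA]
    exact ⟨fun ⟨i, _, h⟩ => ⟨i, h⟩, fun ⟨i, h⟩ => ⟨i, Set.mem_univ _, h⟩⟩
  have hRel : ∀ i j, Rel R (at' i) (at' j) ↔ Lt i j := by
    intro i j
    rw [rel_iff, hR]
    constructor
    · rintro ⟨i', j', h, h'⟩
      rw [isOPair_iff, op_inj] at h'
      rw [hinj h'.1, hinj h'.2]
      exact h
    · intro h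
      exact ⟨i, j, h, isOPair_iff.2 rfl⟩
  refine ⟨M, _, hM.toIsZF, hwf, A none, R, ⟨?_, ?_, ?_⟩, ?_, ?_⟩
  · intro x hx h
    obtain ⟨i, rfl⟩ := (hX x).1 hx
    exact Lt.irrefl i ((hRel i i).1 h)
  · intro x y z hx hy hz h h'
    obtain ⟨i, rfl⟩ := (hX x).1 hx
    obtain ⟨j, rfl⟩ := (hX y).1 hy
    obtain ⟨k, rfl⟩ := (hX z).1 hz
    rw [hRel] at h h' ⊢
    exact h.trans h'
  · intro x y hx hy hxy
    obtain ⟨i, rfl⟩ := (hX x).1 hx
    obtain ⟨j, rfl⟩ := (hX y).1 hy
    rw [hRel, hRel]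
    exact Lt.total fun h => hxy (by rw [h])
  · -- CRT fails
    intro h
    obtain ⟨Z, hZ⟩ := exists_pairs (A none)
    -- values of `f`
    have hAB : ∀ i j i' j', A (some (false, i, j)) = A (some (false, i', j')) ↔
        TT i j = TT i' j' := by
      intro i j i' j'
      constructor
      · intro he
        ext z
        have h1 := hA (some (false, i, j)) (at' z)
        have h2 := hA (some (false, i', j')) (at' z)
        rw [he, h2] at h1
        constructor
        · intro hz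
          obtain ⟨w, hw, hwz⟩ := h1.2 ⟨z, hz, rfl⟩
          rw [hinj hwz]
          exact hw
        · intro hz
          obtain ⟨w, hw, hwz⟩ := h1.1 ⟨z, hz, rfl⟩
          rw [hinj hwz]
          exact hw
      · intro he
        refine mext fun z => ?_
        rw [hA, hA]
        refine exists_congr fun w => and_congr_left fun _ => ?_
        exact (Set.ext_iff.1 he w)
    have hVal : ∀ i j k, i ≠ j → (Value f (at' i) (at' j) k ↔ k = A (some (false, i, j))) := by
      intro i j k hij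
      rw [value_iff, hf]
      constructor
      · rintro ⟨i', j', -, u, hu, hz⟩
        rw [isPair_iff] at hu
        rw [isOPair_iff, op_inj, hu] at hz
        obtain ⟨h1, rfl⟩ := hz
        rcases upair_eq h1 with ⟨h2, h3⟩ | ⟨h2, h3⟩
        · rw [hinj h2, hinj h3]
        · rw [hinj h2, hinj h3]
          exact (hAB _ _ _ _).2 (TT_symm _ _)
      · rintro rfl
        exact ⟨i, j, hij, _, isPair_iff.2 rfl, isOPair_iff.2 rfl⟩
    have hfun : IsFun f Z (pw (A none)) := by
      constructor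
      · intro z hz
        obtain ⟨i, j, hij, u, hu, hz⟩ := (hf z).1 hz
        refine ⟨u, _, (hZ u).2 ⟨at' i, at' j, (hX _).2 ⟨i, rfl⟩, (hX _).2 ⟨j, rfl⟩,
          fun h => hij (hinj h), hu⟩, ?_, hz⟩
        rw [mem_pw]
        intro w hw
        obtain ⟨l, -, rfl⟩ := (hA _ w).1 hw
        exact (hX _).2 ⟨l, rfl⟩
      · intro x hx
        obtain ⟨a, b, ha, hb, hab, hx⟩ := (hZ x).1 hx
        obtain ⟨i, rfl⟩ := (hX a).1 ha
        obtain ⟨j, rfl⟩ := (hX b).1 hb
        have hij : i ≠ j := fun h => hab (by rw [h])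
        refine ⟨A (some (false, i, j)), ?_, fun y hy => ?_⟩
        · obtain ⟨z, hz, hr⟩ := (hVal i j _ hij).2 rfl
          rw [isPair_iff] at hx hz
          rw [hx, ← hz]
          exact hr
        · exact (hVal i j y hij).1 ⟨x, hx, hy⟩
    obtain ⟨Y, R', hY, hYinf, ⟨hirr, htrans, htot⟩, hcan⟩ := h Z _ f hZ hfun
    rw [isFinite_iff] at hYinf
    obtain ⟨E, hE⟩ := hsupp Y
    have hS : {i | at' i ∈ Y}.Infinite := by
      intro hfin
      refine hYinf ((hfin.image at').subset fun y hy => ?_)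
      obtain ⟨i, rfl⟩ := (hX y).1 (hY y hy)
      exact ⟨i, hy, rfl⟩
    have hfix : SetFix Gm E {i | at' i ∈ Y} := by
      intro π hπ hπE i hi
      have h1 : Sat (.mem 1 0) (fun n => if n = 0 then Y else at' i) := by
        show (if (1 : ℕ) = 0 then Y else at' i) ∈ (if (0 : ℕ) = 0 then Y else at' i)
        simpa using hi
      have h2 := hinv E π hπ hπE _ _ (fun n => if n = 0 then Y else at' (π i)) (fun n => by
        by_cases hn : n = 0
        · subst hn
          exact Or.inl ⟨rfl, hE⟩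
        · exact Or.inr ⟨i, if_neg hn, if_neg hn⟩) h1
      have h3 : (if (1 : ℕ) = 0 then Y else at' (π i)) ∈ (if (0 : ℕ) = 0 then Y else at' (π i)) :=
        h2
      simpa using h3
    obtain ⟨p, q, r, s, hp, hq, hr, hs, hfour⟩ := exists_four hfix hS
    -- the order on `Y`
    have hSame : ∀ a b a' b', a ≠ b → a' ≠ b' →
        (Same f (at' a) (at' b) (at' a') (at' b') ↔ TT a b = TT a' b') := by
      intro a b a' b' hab hab'
      rw [← hAB]
      constructor
      · rintro ⟨k, h1, h2⟩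
        rw [hVal _ _ _ hab] at h1
        rw [hVal _ _ _ hab'] at h2
        rw [← h1, ← h2]
      · intro h
        exact ⟨_, (hVal _ _ _ hab).2 rfl, (hVal _ _ _ hab').2 h⟩
    have htot' : ∀ a b, at' a ∈ Y → at' b ∈ Y → a ≠ b →
        Rel R' (at' a) (at' b) ∨ Rel R' (at' b) (at' a) :=
      fun a b ha hb hab => htot _ _ ha hb fun h => hab (hinj h)
    -- orient the two pairs
    obtain ⟨p, q, r, s, hp, hq, hr, hs, hc, hpq, hrs⟩ : ∃ p q r s, at' p ∈ Y ∧ at' q ∈ Y ∧
        at' r ∈ Y ∧ at' s ∈ Y ∧ Cfg p q r s ∧ Rel R' (at' p) (at' q) ∧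
        Rel R' (at' r) (at' s) := by
      have hc := hfour.cfg
      rcases htot' p q hp hq hc.pq with h1 | h1 <;> rcases htot' r s hr hs hc.rs with h2 | h2
      · exact ⟨p, q, r, s, hp, hq, hr, hs, hc, h1, h2⟩
      · exact ⟨p, q, s, r, hp, hq, hs, hr, hc.swap2, h1, h2⟩
      · exact ⟨q, p, r, s, hq, hp, hr, hs, hc.swap1, h1, h2⟩
      · exact ⟨q, p, s, r, hq, hp, hs, hr, hc.swap1.swap2, h1, h2⟩
    rcases hcan with hcan | hcan | hcan | hcan
    · rcases htot' p r hp hr hc.pr with h1 | h1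
      · have := hcan _ _ _ _ hp hq hp hr hpq h1
        rw [hSame _ _ _ _ hc.pq hc.pr] at this
        exact hc.h4 this
      · have := hcan _ _ _ _ hp hq hr hp hpq h1
        rw [hSame _ _ _ _ hc.pq hc.pr.symm, TT_symm r p] at this
        exact hc.h4 this
    · rcases htot' p r hp hr hc.pr with h1 | h1
      · have := (hcan _ _ _ _ hp hq hp hr hpq h1).2 rfl
        rw [hSame _ _ _ _ hc.pq hc.pr] at this
        exact hc.h4 this
      · have := (hcan _ _ _ _ hr hs hr hp hrs h1).2 rfl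
        rw [hSame _ _ _ _ hc.rs hc.pr.symm, TT_symm r p] at this
        exact hc.h5 this
    · rcases htot' q s hq hs hc.qs with h1 | h1
      · have := (hcan _ _ _ _ hr hs hq hs hrs h1).2 rfl
        rw [hSame _ _ _ _ hc.rs hc.qs, hc.h3] at this
        exact hc.h5 this
      · have := (hcan _ _ _ _ hp hq hs hq hpq h1).2 rfl
        rw [hSame _ _ _ _ hc.pq hc.qs.symm, TT_symm s q, hc.h3] at this
        exact hc.h4 this
    · rcases htot' p r hp hr hc.pr with h1 | h1 <;> rcases htot' p s hp hs hc.ps with h2 | h2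
      · have := (hcan _ _ _ _ hp hr hp hs h1 h2).1
          ((hSame _ _ _ _ hc.pr hc.ps).2 hc.h1.symm)
        exact hc.rs (hinj this.2)
      · have := (hcan _ _ _ _ hp hr hs hp h1 h2).1
          ((hSame _ _ _ _ hc.pr hc.ps.symm).2 (by rw [TT_symm s p]; exact hc.h1.symm))
        exact hc.ps (hinj this.1)
      · have := (hcan _ _ _ _ hr hp hp hs h1 h2).1
          ((hSame _ _ _ _ hc.pr.symm hc.ps).2 (by rw [TT_symm r p]; exact hc.h1.symm))
        exact hc.pr (hinj this.1).symm
      · have := (hcan _ _ _ _ hr hp hs hp h1 h2).1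
          ((hSame _ _ _ _ hc.pr.symm hc.ps.symm).2
            (by rw [TT_symm r p, TT_symm s p]; exact hc.h1.symm))
        exact hc.rs (hinj this.1)
  · -- RT2
    intro n hn Z c hZ hc
    obtain ⟨N, rfl⟩ := isNat_iff.1 hn
    -- a support of `c` and of the colours
    obtain ⟨E, hEc, hEn⟩ : ∃ E, Supp E c ∧ ∀ m < N, Supp E (nat m) := by
      obtain ⟨E₀, h0⟩ := hsupp c
      choose F hF using fun m : ℕ => hsupp (nat m)
      refine ⟨E₀ ∪ (Finset.range N).biUnion F, hmono _ _ _ Finset.subset_union_left h0,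
        fun m hm => hmono _ _ _ ?_ (hF m)⟩
      exact (Finset.subset_biUnion_of_mem F (Finset.mem_range.2 hm)).trans
        Finset.subset_union_right
    obtain ⟨k, hkinf, hkhom⟩ := exists_cone E
    refine ⟨A k, fun z hz => ?_, ?_, ?_⟩
    · obtain ⟨i, -, rfl⟩ := (hA k z).1 hz
      exact (hX _).2 ⟨i, rfl⟩
    · rw [isFinite_iff]
      intro hfin
      refine hkinf (Set.Finite.of_finite_image (f := at') (hfin.subset ?_) hinj.injOn)
      rintro _ ⟨i, hi, rfl⟩
      exact (hA k _).2 ⟨i, hi, rfl⟩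
    · obtain ⟨i, hi, j, hj, hij⟩ : ∃ i, i ∈ fam k ∧ ∃ j, j ∈ fam k ∧ Lt i j := by
        obtain ⟨i, hi, j, hj, hij⟩ := hkinf.nontrivial
        rcases Lt.total hij with h | h
        · exact ⟨i, hi, j, hj, h⟩
        · exact ⟨j, hj, i, hi, h⟩
      have hne : ∀ {i j}, Lt i j → i ≠ j := by
        rintro i j h rfl
        exact Lt.irrefl _ h
      have hmemZ : ∀ i j : Tr, i ≠ j → upair (at' i) (at' j) ∈ Z := by
        intro i j hij
        exact (hZ _).2 ⟨at' i, at' j, (hX _).2 ⟨i, rfl⟩, (hX _).2 ⟨j, rfl⟩,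
          fun h => hij (hinj h), isPair_iff.2 rfl⟩
      obtain ⟨k', hk, -⟩ := hc.2 _ (hmemZ i j (hne hij))
      obtain ⟨z', k'', -, hkN, he⟩ := hc.1 _ (rel_iff.1 hk)
      rw [isOPair_iff, op_inj] at he
      obtain ⟨-, rfl⟩ := he
      obtain ⟨m, hm, rfl⟩ := (mem_nat N k').1 hkN
      have key : ∀ i' j', i' ∈ fam k → j' ∈ fam k → Lt i' j' →
          Value c (at' i') (at' j') (nat m) := by
        intro i' j' hi' hj' hij'
        obtain ⟨π, hπΓ, hπ, hπi, hπj⟩ := hkhom i j i' j' hi hj hi' hj' hij hij'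
        have h1 : Sat (valueF 0 1 2 3) (fun n => if n = 0 then c else if n = 1 then at' i else
            if n = 2 then at' j else nat m) := by
          rw [sat_valueF]
          exact value_iff.2 (rel_iff.1 hk)
        have h2 := hinv E π hπΓ hπ _ _ (fun n => if n = 0 then c else if n = 1 then at' i' else
            if n = 2 then at' j' else nat m) (fun n => by
            split_ifs with h0 h1 h2
            · exact Or.inl ⟨rfl, hEc⟩
            · exact Or.inr ⟨i, rfl, by rw [hπi]⟩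
            · exact Or.inr ⟨j, rfl, by rw [hπj]⟩
            · exact Or.inl ⟨rfl, hEn m hm⟩) h1
        rw [sat_valueF] at h2
        exact h2
      refine ⟨nat m, fun x y hx hy hxy => ?_⟩
      obtain ⟨i', hi', rfl⟩ := (hA k x).1 hx
      obtain ⟨j', hj', rfl⟩ := (hA k y).1 hy
      have hij' : i' ≠ j' := fun h => hxy (by rw [h])
      rcases Lt.total hij' with h | h
      · exact key i' j' hi' hj' h
      · have := key j' i' hj' hi' h
        rw [value_iff, upair_comm, ← value_iff] at this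
        exact this

end Pool.Agent.Helper54.CR
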