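import Pool.Agent.Helper54.CR.Model

/-!
The set `ℚ →₀ ℚ` with its lexicographic order and its balls, and the group of all permutations
preserving the order and the balls.
-/

namespace Pool.Agent.Helper54.CR

open Equiv

/-- the index set: finitely supported functions from `ℚ` to `ℚ` -/
abbrev Tr : Type := ℚ →₀ ℚ

/-- `x` and `y` agree up to `q` -/
def Ag (q : ℚ) (x y : Tr) : Prop := ∀ p ≤ q, x p = y p

/-- the lexicographic order -/
def Lt (x y : Tr) : Prop := ∃ q, (∀ p < q, x p = y p) ∧ x q < y q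

/-- `z` belongs to the smallest ball containing `x` and `y` -/
def T (x y z : Tr) : Prop := ∀ q, Ag q x y → Ag q x z

/-- `q` is the first place where `x` and `y` differ -/
def Fd (q : ℚ) (x y : Tr) : Prop := (∀ p < q, x p = y p) ∧ x q ≠ y q

theorem Ag.symm {q : ℚ} {x y : Tr} (h : Ag q x y) : Ag q y x := fun p hp => (h p hp).symm
theorem Ag.trans {q : ℚ} {x y z : Tr} (h : Ag q x y) (h' : Ag q y z) : Ag q x z :=
  fun p hp => (h p hp).trans (h' p hp)
theorem Ag.refl (q : ℚ) (x : Tr) : Ag q x x := fun _ _ => rfl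
theorem Ag.mono {q q' : ℚ} {x y : Tr} (h : Ag q x y) (hq : q' ≤ q) : Ag q' x y :=
  fun p hp => h p (hp.trans hq)

theorem Lt.irrefl (x : Tr) : ¬ Lt x x := by
  rintro ⟨q, -, h⟩
  exact lt_irrefl _ h

theorem Lt.trans {x y z : Tr} (h : Lt x y) (h' : Lt y z) : Lt x z := by
  obtain ⟨q, h1, h2⟩ := h
  obtain ⟨r, h3, h4⟩ := h'
  rcases lt_trichotomy q r with hqr | rfl | hqr
  · exact ⟨q, fun p hp => (h1 p hp).trans (h3 p (hp.trans hqr)), by rw [← h3 q hqr]; exact h2⟩
  · exact ⟨q, fun p hp => (h1 p hp).trans (h3 p hp), h2.trans h4⟩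
  · exact ⟨r, fun p hp => (h1 p (hp.trans hqr)).trans (h3 p hp), by rw [h1 r hqr]; exact h4⟩

theorem exists_Fd {x y : Tr} (h : x ≠ y) : ∃ q, Fd q x y := by
  have hne : (x - y).support.Nonempty := by
    rw [Finsupp.support_nonempty_iff]
    exact sub_ne_zero.2 h
  refine ⟨(x - y).support.min' hne, fun p hp => ?_, ?_⟩
  · by_contra hpne
    have : p ∈ (x - y).support := by
      rw [Finsupp.mem_support_iff, Finsupp.sub_apply]
      exact sub_ne_zero.2 hpne
    exact absurd ((x - y).support.min'_le p this) (not_le.2 hp)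
  · have := (x - y).support.min'_mem hne
    rw [Finsupp.mem_support_iff, Finsupp.sub_apply] at this
    exact sub_ne_zero.1 this

theorem Lt.total {x y : Tr} (h : x ≠ y) : Lt x y ∨ Lt y x := by
  obtain ⟨q, h1, h2⟩ := exists_Fd h
  rcases lt_or_gt_of_ne h2 with h3 | h3
  · exact Or.inl ⟨q, h1, h3⟩
  · exact Or.inr ⟨q, fun p hp => (h1 p hp).symm, h3⟩

theorem Lt.fd {x y : Tr} (h : Lt x y) : ∃ q, Fd q x y ∧ x q < y q := by
  obtain ⟨q, h1, h2⟩ := h
  exact ⟨q, ⟨h1, h2.ne⟩, h2⟩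

theorem Fd.ag {q : ℚ} {x y : Tr} (h : Fd q x y) {p : ℚ} : Ag p x y ↔ p < q := by
  constructor
  · intro h1
    by_contra h2
    exact h.2 (h1 q (not_lt.1 h2))
  · intro h1 p' hp'
    exact h.1 p' (lt_of_le_of_lt hp' h1)

/-- the group of permutations preserving the order and the balls -/
def Gm : Subgroup (Perm Tr) where
  carrier := {π | (∀ x y, Lt x y ↔ Lt (π x) (π y)) ∧ ∀ x y z, T x y z ↔ T (π x) (π y) (π z)}
  one_mem' := ⟨fun _ _ => Iff.rfl, fun _ _ _ => Iff.rfl⟩
  mul_mem' := by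
    intro g h hg hh
    exact ⟨fun x y => (hh.1 x y).trans (hg.1 _ _), fun x y z => (hh.2 x y z).trans (hg.2 _ _ _)⟩
  inv_mem' := by
    intro g hg
    refine ⟨fun x y => ?_, fun x y z => ?_⟩
    · rw [hg.1 (g⁻¹ x) (g⁻¹ y)]
      simp
    · rw [hg.2 (g⁻¹ x) (g⁻¹ y) (g⁻¹ z)]
      simp

open Classical in
/-- the permutation `σ` on `U` and the identity elsewhere -/
noncomputable def loc (U : Tr → Prop) (σ : Perm Tr) (h : ∀ x, U x ↔ U (σ x)) : Perm Tr where
  toFun x := if U x then σ x else x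
  invFun x := if U x then σ⁻¹ x else x
  left_inv x := by
    by_cases hx : U x
    · have h2 : U (σ x) := (h x).1 hx
      simp [hx, h2]
    · simp [hx]
  right_inv x := by
    by_cases hx : U x
    · have h2 : U (σ⁻¹ x) := by
        rw [h]; simpa using hx
      simp only [hx, if_true, h2]
      simp
    · simp [hx]

theorem loc_in {U : Tr → Prop} {σ : Perm Tr} {h : ∀ x, U x ↔ U (σ x)} {x : Tr} (hx : U x) :
    loc U σ h x = σ x := if_pos hx

theorem loc_out {U : Tr → Prop} {σ : Perm Tr} {h : ∀ x, U x ↔ U (σ x)} {x : Tr} (hx : ¬ U x) :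
    loc U σ h x = x := if_neg hx

theorem loc_inv {U : Tr → Prop} {σ : Perm Tr} (h : ∀ x, U x ↔ U (σ x))
    (h' : ∀ x, U x ↔ U (σ⁻¹ x)) : (loc U σ h)⁻¹ = loc U σ⁻¹ h' := by
  ext1 x
  rw [Perm.inv_eq_iff_eq]
  by_cases hx : U x
  · rw [loc_in hx, loc_in ((h' x).1 hx)]
    simp
  · rw [loc_out hx, loc_out hx]

theorem loc_fwd {r : ℚ} {c : Tr} {σ : Perm Tr} (hσ : σ ∈ Gm)
    (h : ∀ x, Ag r c x ↔ Ag r c (σ x)) :
    (∀ x y, Lt x y → Lt (loc (Ag r c) σ h x) (loc (Ag r c) σ h y)) ∧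
    ∀ x y z, T x y z → T (loc (Ag r c) σ h x) (loc (Ag r c) σ h y) (loc (Ag r c) σ h z) := by
  have hag : ∀ x, Ag r x (loc (Ag r c) σ h x) := by
    intro x
    by_cases hx : Ag r c x
    · rw [loc_in hx]
      exact hx.symm.trans ((h x).1 hx)
    · rw [loc_out hx]
      exact Ag.refl _ _
  constructor
  · intro x y hxy
    by_cases hx : Ag r c x
    · by_cases hy : Ag r c y
      · rw [loc_in hx, loc_in hy]
        exact (hσ.1 x y).1 hxy
      · obtain ⟨q, h1, h2⟩ := hxy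
        have hq : q ≤ r := by
          by_contra hq
          exact hy (hx.trans fun p hp => h1 p (lt_of_le_of_lt hp (not_le.1 hq)))
        refine ⟨q, fun p hp => ?_, ?_⟩
        · rw [← hag x p (hp.le.trans hq), ← hag y p (hp.le.trans hq)]
          exact h1 p hp
        · rw [← hag x q hq, ← hag y q hq]
          exact h2
    · by_cases hy : Ag r c y
      · obtain ⟨q, h1, h2⟩ := hxy
        have hq : q ≤ r := by
          by_contra hq
          exact hx (hy.trans fun p hp => (h1 p (lt_of_le_of_lt hp (not_le.1 hq))).symm)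
        refine ⟨q, fun p hp => ?_, ?_⟩
        · rw [← hag x p (hp.le.trans hq), ← hag y p (hp.le.trans hq)]
          exact h1 p hp
        · rw [← hag x q hq, ← hag y q hq]
          exact h2
      · rw [loc_out hx, loc_out hy]
        exact hxy
  · intro x y z hT q hq
    by_cases hqr : q ≤ r
    · -- small `q`
      have h1 : Ag q x y := ((hag x).mono hqr).trans (hq.trans ((hag y).mono hqr).symm)
      exact ((hag x).mono hqr).symm.trans ((hT q h1).trans ((hag z).mono hqr))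
    · have hrq : r ≤ q := (not_le.1 hqr).le
      have h1 : Ag r x y := (hag x).trans ((hq.mono hrq).trans (hag y).symm)
      have h2 : Ag r x z := hT r h1
      by_cases hx : Ag r c x
      · have hy := hx.trans h1
        have hz := hx.trans h2
        rw [loc_in hx, loc_in hy] at hq
        rw [loc_in hx, loc_in hz]
        exact (hσ.2 x y z).1 hT q hq
      · have hy : ¬ Ag r c y := fun h' => hx (h'.trans h1.symm)
        have hz : ¬ Ag r c z := fun h' => hx (h'.trans h2.symm)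
        rw [loc_out hx, loc_out hy] at hq
        rw [loc_out hx, loc_out hz]
        exact hT q hq

theorem loc_mem {r : ℚ} {c : Tr} {σ : Perm Tr} (hσ : σ ∈ Gm)
    (h : ∀ x, Ag r c x ↔ Ag r c (σ x)) : loc (Ag r c) σ h ∈ Gm := by
  have h' : ∀ x, Ag r c x ↔ Ag r c (σ⁻¹ x) := fun x => by
    rw [h (σ⁻¹ x)]; simp
  obtain ⟨h1, h2⟩ := loc_fwd hσ h
  obtain ⟨h3, h4⟩ := loc_fwd (Gm.inv_mem hσ) h'
  rw [← loc_inv h h'] at h3 h4
  refine ⟨fun x y => ⟨h1 x y, fun hxy => ?_⟩, fun x y z => ⟨h2 x y z, fun hxy => ?_⟩⟩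
  · have := h3 _ _ hxy
    simpa using this
  · have := h4 _ _ _ hxy
    simpa using this

/-! ### translations and dilations -/

/-- translation -/
noncomputable def tl (s : Tr) : Perm Tr := Equiv.addRight s

theorem tl_apply (s x : Tr) : tl s x = x + s := rfl

theorem ag_tl {s x y : Tr} {q : ℚ} : Ag q (x + s) (y + s) ↔ Ag q x y := by
  simp [Ag]

theorem tl_mem (s : Tr) : tl s ∈ Gm := by
  refine ⟨fun x y => ?_, fun x y z => ?_⟩
  · simp only [Lt, tl_apply, Finsupp.add_apply, add_left_inj, add_lt_add_iff_right]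
  · simp only [T, tl_apply, ag_tl]

/-- the order automorphism `q ↦ r + m (q - r)` -/
def dl (r m : ℚ) (hm : 0 < m) : ℚ ≃o ℚ where
  toFun q := r + m * (q - r)
  invFun q := r + m⁻¹ * (q - r)
  left_inv q := by field_simp; ring
  right_inv q := by field_simp; ring
  map_rel_iff' := by
    intro a b
    simp only [Equiv.coe_fn_mk, add_le_add_iff_left]
    rw [mul_le_mul_iff_right₀ hm]
    simp

theorem dl_apply (r m : ℚ) (hm : 0 < m) (q : ℚ) : dl r m hm q = r + m * (q - r) := rfl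

theorem dl_self (r m : ℚ) (hm : 0 < m) : dl r m hm r = r := by simp [dl_apply]

/-- dilation -/
noncomputable def sc (φ : ℚ ≃o ℚ) (l : ℚ) (hl : l ≠ 0) : Perm Tr where
  toFun x := l • Finsupp.equivMapDomain φ.toEquiv x
  invFun x := l⁻¹ • Finsupp.equivMapDomain φ.symm.toEquiv x
  left_inv x := by
    ext q
    simp [hl]
  right_inv x := by
    ext q
    simp [hl]

theorem sc_apply (φ : ℚ ≃o ℚ) (l : ℚ) (hl : l ≠ 0) (x : Tr) (q : ℚ) :
    sc φ l hl x q = l * x (φ.symm q) := by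
  simp [sc]

theorem ag_sc {φ : ℚ ≃o ℚ} {l : ℚ} {hl : l ≠ 0} {x y : Tr} {q : ℚ} :
    Ag (φ q) (sc φ l hl x) (sc φ l hl y) ↔ Ag q x y := by
  constructor
  · intro h p hp
    have := h (φ p) (by simpa using hp)
    rw [sc_apply, sc_apply] at this
    simpa [hl] using this
  · intro h p hp
    rw [sc_apply, sc_apply, h (φ.symm p) (by rwa [OrderIso.symm_apply_le])]

theorem sc_mem (φ : ℚ ≃o ℚ) {l : ℚ} (hl : 0 < l) : sc φ l hl.ne' ∈ Gm := by
  refine ⟨fun x y => ⟨?_, ?_⟩, fun x y z => ⟨fun h q hq => ?_, fun h q hq => ?_⟩⟩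
  · rintro ⟨q, h1, h2⟩
    refine ⟨φ q, fun p hp => ?_, ?_⟩
    · rw [sc_apply, sc_apply, h1 (φ.symm p) (by rwa [OrderIso.symm_apply_lt])]
    · rw [sc_apply, sc_apply, OrderIso.symm_apply_apply]
      exact mul_lt_mul_of_pos_left h2 hl
  · rintro ⟨q, h1, h2⟩
    refine ⟨φ.symm q, fun p hp => ?_, ?_⟩
    · have := h1 (φ p) (by rwa [OrderIso.lt_symm_apply] at hp)
      rw [sc_apply, sc_apply, OrderIso.symm_apply_apply] at this
      exact mul_left_cancel₀ hl.ne' this
    · rw [sc_apply, sc_apply] at h2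
      exact lt_of_mul_lt_mul_left h2 hl.le
  · obtain ⟨q, rfl⟩ := φ.surjective q
    rw [ag_sc] at hq ⊢
    exact h q hq
  · have := h (φ q) (ag_sc.2 hq)
    exact ag_sc.1 this

/-! ### homogeneity -/

/-- local translation -/
theorem exists_loc_tl {r : ℚ} {c s : Tr} (hs : ∀ p ≤ r, s p = 0) :
    ∃ π ∈ Gm, (∀ y, ¬ Ag r c y → π y = y) ∧ ∀ y, Ag r c y → π y = y + s := by
  have h : ∀ x, Ag r c x ↔ Ag r c (tl s x) := by
    intro x
    have : Ag r x (tl s x) := fun p hp => by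
      rw [tl_apply, Finsupp.add_apply, hs p hp, add_zero]
    exact ⟨fun h => h.trans this, fun h => h.trans this.symm⟩
  exact ⟨loc (Ag r c) (tl s) h, loc_mem (tl_mem s) h, fun y hy => loc_out hy,
    fun y hy => loc_in hy⟩

/-- moving the second point -/
theorem homog' {r : ℚ} {c a b b' : Tr} (ha : Ag r c a) (hb : Ag r c b) (hb' : Ag r c b')
    (h : Lt a b) (h' : Lt a b') :
    ∃ π ∈ Gm, (∀ y, ¬ Ag r c y → π y = y) ∧ π a = a ∧ π b = b' := by
  obtain ⟨q, hq, hlt⟩ := h.fd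
  obtain ⟨q', hq', hlt'⟩ := h'.fd
  have hrq : r < q := hq.ag.1 (ha.symm.trans hb)
  have hrq' : r < q' := hq'.ag.1 (ha.symm.trans hb')
  set m : ℚ := (q' - r) / (q - r) with hm
  have hm0 : 0 < m := div_pos (sub_pos.2 hrq') (sub_pos.2 hrq)
  set l : ℚ := (b' q' - a q') / (b q - a q) with hl
  have hl0 : 0 < l := div_pos (sub_pos.2 hlt') (sub_pos.2 hlt)
  set φ := dl r m hm0 with hφ
  have hφq : φ q = q' := by
    rw [hφ, dl_apply, hm, div_mul_cancel₀ _ (sub_pos.2 hrq).ne']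
    ring
  have hφr : φ.symm r = r := by
    rw [OrderIso.symm_apply_eq, hφ, dl_self]
  -- the dilation with centre `a`
  set σ : Perm Tr := tl a * sc φ l hl0.ne' * tl (-a) with hσ
  have hσm : σ ∈ Gm := Gm.mul_mem (Gm.mul_mem (tl_mem _) (sc_mem φ hl0)) (tl_mem _)
  have hσa : ∀ x p, σ x p = l * (x (φ.symm p) - a (φ.symm p)) + a p := by
    intro x p
    show (sc φ l hl0.ne' (x + -a) + a) p = _
    rw [Finsupp.add_apply, sc_apply, Finsupp.add_apply, Finsupp.neg_apply, sub_eq_add_neg]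
  have hU : ∀ x, Ag r c x ↔ Ag r c (σ x) := by
    intro x
    constructor
    · intro hx p hp
      rw [hσa]
      have hp' : φ.symm p ≤ r := by
        rw [← hφr]; exact φ.symm.monotone hp
      rw [← hx _ hp', ← ha _ hp', ha p hp]
      ring
    · intro hx p hp
      have hp' : φ p ≤ r := by
        have := φ.monotone hp
        rwa [hφ, dl_self] at this
      have h1 := hx (φ p) hp'
      rw [hσa, OrderIso.symm_apply_apply, ha _ hp'] at h1
      have h2 : l * (x p - a p) = 0 := by linarith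
      have h3 : x p - a p = 0 := by
        rcases mul_eq_zero.1 h2 with h | h
        · exact absurd h hl0.ne'
        · exact h
      rw [ha p hp]
      linarith
  obtain ⟨π₁, hπ₁, ho₁, hi₁⟩ : ∃ π ∈ Gm, (∀ y, ¬ Ag r c y → π y = y) ∧
      ∀ y, Ag r c y → π y = σ y :=
    ⟨loc (Ag r c) σ hU, loc_mem hσm hU, fun y hy => loc_out hy, fun y hy => loc_in hy⟩
  have hfix : σ a = a := by
    ext p
    rw [hσa]; ring
  have hag : Ag q' b' (σ b) := by
    intro p hp
    rw [hσa]
    rcases eq_or_lt_of_le hp with rfl | hp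
    · have : φ.symm p = q := by rw [OrderIso.symm_apply_eq, hφq]
      rw [this, hl, div_mul_cancel₀ _ (sub_pos.2 hlt).ne']
      ring
    · have h1 : φ.symm p < q := by rw [OrderIso.symm_apply_lt, hφq]; exact hp
      rw [← hq.1 _ h1, ← hq'.1 _ hp]
      ring
  have hs : ∀ p ≤ q', (b' - σ b) p = 0 := by
    intro p hp
    rw [Finsupp.sub_apply, hag p hp, sub_self]
  obtain ⟨π₂, hπ₂, ho₂, hi₂⟩ := exists_loc_tl (c := b') hs
  have hout : ∀ y, Ag q' b' y → Ag r c y := fun y hy => hb'.trans (hy.mono hrq'.le)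
  refine ⟨π₂ * π₁, Gm.mul_mem hπ₂ hπ₁, fun y hy => ?_, ?_, ?_⟩
  · rw [Perm.mul_apply, ho₁ y hy, ho₂ y (fun h => hy (hout y h))]
  · rw [Perm.mul_apply, hi₁ a ha, hfix]
    exact ho₂ a (fun h => hq'.2 (h q' le_rfl).symm)
  · rw [Perm.mul_apply, hi₁ b hb, hi₂ _ hag]
    abel

/-- homogeneity of the cones -/
theorem homog {r : ℚ} {c a b a' b' : Tr} (ha : Ag r c a) (hb : Ag r c b) (ha' : Ag r c a')
    (hb' : Ag r c b') (h : Lt a b) (h' : Lt a' b') :
    ∃ π ∈ Gm, (∀ y, ¬ Ag r c y → π y = y) ∧ π a = a' ∧ π b = b' := by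
  have hs : ∀ p ≤ r, (a' - a) p = 0 := by
    intro p hp
    rw [Finsupp.sub_apply, ← ha p hp, ← ha' p hp, sub_self]
  obtain ⟨π₁, hπ₁, ho₁, hi₁⟩ := exists_loc_tl (c := c) hs
  have h1 : π₁ a = a' := by rw [hi₁ a ha]; abel
  have hb1 : Ag r c (π₁ b) := by
    rw [hi₁ b hb]
    intro p hp
    rw [Finsupp.add_apply, hs p hp, add_zero]
    exact hb p hp
  have hlt : Lt a' (π₁ b) := by
    rw [← h1]
    exact (hπ₁.1 a b).1 h
  obtain ⟨π₂, hπ₂, ho₂, h2, h3⟩ := homog' ha' hb1 hb' hlt h'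
  refine ⟨π₂ * π₁, Gm.mul_mem hπ₂ hπ₁, fun y hy => ?_, ?_, ?_⟩
  · rw [Perm.mul_apply, ho₁ y hy, ho₂ y hy]
  · rw [Perm.mul_apply, h1, h2]
  · rw [Perm.mul_apply, h3]

/-! ### separation of a point from a finite set -/

theorem exists_sep {E : Finset Tr} {c : Tr} (hc : c ∉ E) : ∃ r : ℚ, ∀ e ∈ E, ¬ Ag r c e := by
  have h : ∀ e : Tr, ∃ q : ℚ, e ∈ E → c q ≠ e q := by
    intro e
    by_cases he : e ∈ E
    · obtain ⟨q, hq⟩ := exists_Fd (fun h => hc (h ▸ he) : c ≠ e)
      exact ⟨q, fun _ => hq.2⟩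
    · exact ⟨0, fun h => absurd h he⟩
  choose q hq using h
  obtain ⟨r, hr⟩ := (E.image q).exists_le
  exact ⟨r, fun e he h => hq e he (h (q e) (hr _ (Finset.mem_image_of_mem q he)))⟩

/-- the ball spanned by two points -/
theorem T_iff {q : ℚ} {x y z : Tr} (h : Fd q x y) : T x y z ↔ ∀ p < q, x p = z p := by
  constructor
  · intro hT p hp
    exact hT p (h.ag.2 hp) p le_rfl
  · intro h1 p hp p' hp'
    exact h1 p' (lt_of_le_of_lt hp' (h.ag.1 hp))

theorem T_symm {x y z : Tr} (h : T x y z) : T y x z := fun q hq => hq.trans (h q hq.symm)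

/-- the four points -/
structure Four (p q r s : Tr) : Prop where
  pq : p ≠ q
  rs : r ≠ s
  pr : p ≠ r
  ps : p ≠ s
  qr : q ≠ r
  qs : q ≠ s
  h1 : ∀ z, T p r z ↔ T p s z
  h2 : ∀ z, T p r z ↔ T q r z
  h3 : ∀ z, T p r z ↔ T q s z
  h4 : ¬ T p q r
  h5 : ¬ T r s p

theorem exists_four {E : Finset Tr} {S : Set Tr} (hS : SetFix Gm E S) (hinf : S.Infinite) :
    ∃ p q r s, p ∈ S ∧ q ∈ S ∧ r ∈ S ∧ s ∈ S ∧ Four p q r s := by
  obtain ⟨x, hxS, hxE⟩ := hinf.exists_notMem_finset E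
  obtain ⟨r, hr⟩ := exists_sep hxE
  have key : ∀ s : Tr, (∀ p ≤ r, s p = 0) → x + s ∈ S := by
    intro s hs
    obtain ⟨π, hπ, ho, hi⟩ := exists_loc_tl (c := x) hs
    have := hS π hπ (fun e he => ho e (hr e he)) x hxS
    rwa [hi x (Ag.refl _ _)] at this
  have hs1 : ∀ p ≤ r, (Finsupp.single (r + 1) (1 : ℚ)) p = 0 := fun p hp =>
    Finsupp.single_eq_of_ne (by intro h; rw [h] at hp; linarith)
  have hs2 : ∀ p ≤ r, (Finsupp.single (r + 2) (1 : ℚ)) p = 0 := fun p hp =>
    Finsupp.single_eq_of_ne (by intro h; rw [h] at hp; linarith)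
  have v1 : ∀ p < r + 1, (Finsupp.single (r + 1) (1 : ℚ)) p = 0 := fun p hp =>
    Finsupp.single_eq_of_ne (by intro h; rw [h] at hp; exact lt_irrefl _ hp)
  have v2 : ∀ p < r + 2, (Finsupp.single (r + 2) (1 : ℚ)) p = 0 := fun p hp =>
    Finsupp.single_eq_of_ne (by intro h; rw [h] at hp; exact lt_irrefl _ hp)
  have v2' : ∀ p < r + 1, (Finsupp.single (r + 2) (1 : ℚ)) p = 0 := fun p hp =>
    v2 p (by linarith)
  have v2'' : (Finsupp.single (r + 2) (1 : ℚ)) (r + 1) = 0 := v2 _ (by linarith)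
  have v1' : (Finsupp.single (r + 1) (1 : ℚ)) (r + 2) = 0 :=
    Finsupp.single_eq_of_ne (by intro h; linarith)
  set e1 : Tr := Finsupp.single (r + 1) 1 with he1
  set e2 : Tr := Finsupp.single (r + 2) 1 with he2
  have w1 : e1 (r + 1) = 1 := by rw [he1, Finsupp.single_eq_same]
  have w2 : e2 (r + 2) = 1 := by rw [he2, Finsupp.single_eq_same]
  have fpq : Fd (r + 2) x (x + e2) := ⟨fun p hp => by simp [v2 p hp], by simp [w2]⟩
  have frs : Fd (r + 2) (x + e1) (x + (e1 + e2)) :=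
    ⟨fun p hp => by simp [v2 p hp], by simp [w2, v1']⟩
  have fpr : Fd (r + 1) x (x + e1) := ⟨fun p hp => by simp [v1 p hp], by simp [w1]⟩
  have fps : Fd (r + 1) x (x + (e1 + e2)) :=
    ⟨fun p hp => by simp [v1 p hp, v2' p hp], by simp [w1, v2'']⟩
  have fqr : Fd (r + 1) (x + e2) (x + e1) :=
    ⟨fun p hp => by simp [v1 p hp, v2' p hp], by simp [w1, v2'']⟩
  have fqs : Fd (r + 1) (x + e2) (x + (e1 + e2)) :=
    ⟨fun p hp => by simp [v1 p hp, v2' p hp], by simp [w1, v2'']⟩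
  have hne : ∀ {q : ℚ} {y z : Tr}, Fd q y z → y ≠ z := by
    rintro q y z h rfl
    exact h.2 rfl
  refine ⟨x, x + e2, x + e1, x + (e1 + e2), hxS, key _ hs2, key _ hs1, key _ ?_, ?_⟩
  · intro p hp
    rw [Finsupp.add_apply, hs1 p hp, hs2 p hp, add_zero]
  · refine ⟨hne fpq, hne frs, hne fpr, hne fps, hne fqr, hne fqs, ?_, ?_, ?_, ?_, ?_⟩
    · intro z
      rw [T_iff fpr, T_iff fps]
    · intro z
      rw [T_iff fpr, T_iff fqr]
      refine forall_congr' fun p => forall_congr' fun hp => ?_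
      simp [v2' p hp]
    · intro z
      rw [T_iff fpr, T_iff fqs]
      refine forall_congr' fun p => forall_congr' fun hp => ?_
      simp [v2' p hp]
    · rw [T_iff fpq]
      intro h
      have := h (r + 1) (by linarith)
      simp [w1] at this
    · rw [T_iff frs]
      intro h
      have := h (r + 1) (by linarith)
      simp [w1] at this

/-! ### the data -/

/-- the family of sets: everything, balls, cones -/
def fam : Option (Bool × Tr × Tr) → Set Tr
  | none => Set.univ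
  | some (false, x, y) => {z | T x y z}
  | some (true, x, y) => {z | ¬ T x z y}

/-- the data of the model -/
def treeData : Data Gm where
  κ := Option (Bool × Tr × Tr)
  cnt := inferInstance
  S := fam
  fix := by
    rintro (_ | ⟨_ | _, x, y⟩)
    · exact ⟨∅, fun _ _ _ _ _ => Set.mem_univ _⟩
    · refine ⟨{x, y}, fun π hπ hE z hz => ?_⟩
      have hx : π x = x := hE x (by simp)
      have hy : π y = y := hE y (by simp)
      have := (hπ.2 x y z).1 hz
      rwa [hx, hy] at this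
    · refine ⟨{x, y}, fun π hπ hE z hz => ?_⟩
      have hx : π x = x := hE x (by simp)
      have hy : π y = y := hE y (by simp)
      intro h
      refine hz ((hπ.2 x z y).2 ?_)
      rwa [hx, hy]
  lt := Lt
  lt_inv := fun π hπ i j h => (hπ.1 i j).1 h
  B := fun x y => some (false, x, y)
  B_inv := fun π hπ i j x hx => (hπ.2 i j x).1 hx

/-- a homogeneous cone missing a finite set -/
theorem exists_cone (E : Finset Tr) : ∃ k : Option (Bool × Tr × Tr), (fam k).Infinite ∧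
    ∀ a b a' b', a ∈ fam k → b ∈ fam k → a' ∈ fam k →
      b' ∈ fam k → Lt a b → Lt a' b' →
      ∃ π ∈ Gm, (∀ i ∈ E, π i = i) ∧ π a = a' ∧ π b = b' := by
  obtain ⟨c, hc⟩ := Infinite.exists_notMem_finset E
  obtain ⟨r, hr⟩ := exists_sep hc
  have hfd : Fd r c (c + Finsupp.single r 1) := by
    refine ⟨fun p hp => ?_, by simp⟩
    rw [Finsupp.add_apply, Finsupp.single_eq_of_ne (by rintro rfl; exact lt_irrefl _ hp),
      add_zero]
  have hU : ∀ y, y ∈ fam (some (true, c, c + Finsupp.single r 1)) ↔ Ag r c y := by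
    intro y
    show ¬ T c y (c + Finsupp.single r 1) ↔ Ag r c y
    constructor
    · intro h
      by_contra h1
      refine h fun q hq => ?_
      rw [hfd.ag]
      by_contra h2
      exact h1 (hq.mono (not_lt.1 h2))
    · intro h h1
      exact lt_irrefl _ (hfd.ag.1 (h1 r h))
  refine ⟨some (true, c, c + Finsupp.single r 1), ?_, ?_⟩
  · have hinj : Function.Injective (fun n : ℕ => c + Finsupp.single (r + 1) (n : ℚ)) := by
      intro m n h
      have h1 := DFunLike.congr_fun h (r + 1)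
      simpa using h1
    refine (Set.infinite_range_of_injective hinj).mono ?_
    rintro _ ⟨n, rfl⟩
    rw [hU]
    intro p hp
    rw [Finsupp.add_apply, Finsupp.single_eq_of_ne (by rintro rfl; linarith), add_zero]
  · intro a b a' b' ha hb ha' hb' h h'
    rw [hU] at ha hb ha' hb'
    obtain ⟨π, hπ, ho, h1, h2⟩ := homog ha hb ha' hb' h h'
    exact ⟨π, hπ, fun i hi => ho i (hr i hi), h1, h2⟩

end Pool.Agent.Helper54.CR
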